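import Pool.Agent.Lib.MP_2847c2_co.MeshLaw

/-!
# Bicuboids: the ten quadrilaterals of two cuboids glued along a (warped) quadrilateral
-/

namespace Pool.Agent.Lib.MP_2847c2_co

/-- The ten boundary quadrilaterals of two cubes with a common face, with vertices in
counterclockwise order as seen from outside: the vertices `0, 1, 2, 3` are those of the bottom,
`4, 5, 6, 7` those of the middle quadrilateral, `8, 9, 10, 11` those of the top. -/
def bicFace : Fin 10 → Fin 4 → Fin 12 :=
  ![![3, 2, 1, 0], ![8, 9, 10, 11],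
    ![0, 1, 5, 4], ![1, 2, 6, 5], ![2, 3, 7, 6], ![3, 0, 4, 7],
    ![4, 5, 9, 8], ![5, 6, 10, 9], ![6, 7, 11, 10], ![7, 4, 8, 11]]

/-- The forty oriented quadrilaterals with first vertex of the boundary of the bicuboid with vertices
`p`. -/
def bicB (p : Fin 12 → P3) (k : Fin 10 × Fin 4) : Quad :=
  (p (bicFace k.1 k.2), p (bicFace k.1 (k.2 + 1)), p (bicFace k.1 (k.2 + 2)),
    p (bicFace k.1 (k.2 + 3)))

/-- The eight classes of directed boundary edges of a bicuboid: the edges `(b, c)` with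
`bicB p k = (b, c, …)` in one class are opposite to each other in boundary quadrilaterals. -/
def bicClass : Fin 10 × Fin 4 → Fin 8 := fun k =>
  (![![2, 5, 3, 4], ![2, 4, 3, 5], ![2, 6, 3, 0], ![4, 6, 5, 0], ![3, 6, 2, 0], ![5, 6, 4, 0],
    ![2, 1, 3, 7], ![4, 1, 5, 7], ![3, 1, 2, 7], ![5, 1, 4, 7]] : Fin 10 → Fin 4 → Fin 8) k.1 k.2

/-- The sums of the weights over the eight classes. -/
noncomputable def bicK (p : Fin 12 → P3) (j : Fin 8) : ℝ :=
  ∑ k, if bicClass k = j then wt (bicB p k) else 0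

/-- Genericity of a bicuboid: no subset of the classes which contains some, but not all, of the
classes `0, …, 5` has weight sum `0`. -/
def Generic (p : Fin 12 → P3) : Prop :=
  ∀ x : Fin 8 → ℝ, (∀ j, x j = 0 ∨ x j = 1) → ∑ j, x j * bicK p j = 0 →
    (∀ j, j.val < 6 → x j = 0) ∨ (∀ j, j.val < 6 → x j = 1)

/-- The first edge of an oriented quadrilateral. -/
def fstEdge (q : Quad) : P3 × P3 := (q.1, q.2.1)

namespace Bic

def nxt : Fin 10 × Fin 4 → Fin 10 × Fin 4 := fun k =>
  (![![(2, 0), (5, 0), (4, 0), (3, 0)], ![(8, 2), (9, 2), (6, 2), (7, 2)],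
    ![(6, 0), (5, 1), (0, 2), (3, 3)], ![(7, 0), (2, 1), (0, 1), (4, 3)],
    ![(8, 0), (3, 1), (0, 0), (5, 3)], ![(9, 0), (4, 1), (0, 3), (2, 3)],
    ![(1, 0), (9, 1), (2, 2), (7, 3)], ![(1, 1), (6, 1), (3, 2), (8, 3)],
    ![(1, 2), (7, 1), (4, 2), (9, 3)], ![(1, 3), (8, 1), (5, 2), (6, 3)]] :
    Fin 10 → Fin 4 → Fin 10 × Fin 4) k.1 k.2

def rv : Fin 10 × Fin 4 → Fin 10 × Fin 4 := fun k =>
  (![![(4, 0), (3, 0), (2, 0), (5, 0)], ![(6, 2), (7, 2), (8, 2), (9, 2)],
    ![(0, 2), (3, 3), (6, 0), (5, 1)], ![(0, 1), (4, 3), (7, 0), (2, 1)],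
    ![(0, 0), (5, 3), (8, 0), (3, 1)], ![(0, 3), (2, 3), (9, 0), (4, 1)],
    ![(2, 2), (7, 3), (1, 0), (9, 1)], ![(3, 2), (8, 3), (1, 1), (6, 1)],
    ![(4, 2), (9, 3), (1, 2), (7, 1)], ![(5, 2), (6, 3), (1, 3), (8, 1)]] :
    Fin 10 → Fin 4 → Fin 10 × Fin 4) k.1 k.2

def num : Fin 10 × Fin 4 → ℕ := fun k =>
  (![![5, 0, 0, 5], ![2, 2, 3, 3], ![0, 3, 5, 0], ![0, 2, 5, 1], ![1, 1, 4, 2], ![1, 0, 4, 3],
    ![1, 3, 4, 0], ![1, 2, 4, 1], ![2, 1, 3, 2], ![2, 0, 3, 3]] : Fin 10 → Fin 4 → ℕ) k.1 k.2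

def rep : Fin 8 → Fin 10 × Fin 4 :=
  ![(2, 3), (9, 1), (2, 0), (0, 2), (3, 0), (0, 1), (5, 1), (6, 3)]

theorem nxt_spec : ∀ k : Fin 10 × Fin 4, bicFace (nxt k).1 (nxt k).2 = bicFace k.1 (k.2 + 3) ∧
    bicFace (nxt k).1 ((nxt k).2 + 1) = bicFace k.1 (k.2 + 2) := by decide

theorem rv_spec : ∀ k : Fin 10 × Fin 4, bicFace (rv k).1 (rv k).2 = bicFace k.1 (k.2 + 1) ∧
    bicFace (rv k).1 ((rv k).2 + 1) = bicFace k.1 k.2 := by decide

theorem iter_spec : ∀ k : Fin 10 × Fin 4, nxt^[num k] (rep (bicClass k)) = k := by decide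

theorem rv_class : ∀ k : Fin 10 × Fin 4, 6 ≤ (bicClass k).val → (bicClass (rv k)).val < 6 := by
  decide

theorem rep_class : ∀ j, bicClass (rep j) = j := by decide

end Bic

open Bic

theorem Opp.swap {ι : Type} {C : ι → Hexa} {e e' : P3 × P3} (h : Opp C e e') :
    Opp C e'.swap e.swap := by
  obtain ⟨⟨i, s⟩, h1, h2⟩ := h
  refine ⟨(i, (s.1, s.2 + 2)), ?_, ?_⟩
  · rw [h2]
    have e1 : s.2 + 2 + 1 = s.2 + 3 := by rw [add_assoc]; rfl
    simp only [outFace, Prod.swap_prod_mk, e1]
  · rw [h1]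
    have e1 : s.2 + 2 + 2 = s.2 := by rw [add_assoc]; simp
    have e2 : s.2 + 2 + 3 = s.2 + 1 := by rw [add_assoc]; rfl
    simp only [outFace, Prod.swap_prod_mk, e1, e2]

theorem SameSide.swap {ι : Type} {C : ι → Hexa} {e e' : P3 × P3} (h : SameSide C e e') :
    SameSide C e.swap e'.swap := by
  induction h with
  | rel _ _ h => exact Relation.EqvGen.symm _ _ (Relation.EqvGen.rel _ _ h.swap)
  | refl x => exact Relation.EqvGen.refl _
  | symm _ _ _ ih => exact Relation.EqvGen.symm _ _ ih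
  | trans _ _ _ _ _ ih1 ih2 => exact Relation.EqvGen.trans _ _ _ ih1 ih2

/-- A generic bicuboid: all directed boundary edges lie on the same side of the same sheet. -/
theorem bic_rigid {ι : Type} [Fintype ι] (p : Fin 12 → P3) (hgen : Generic p) (C : ι → Hexa)
    (hm : IsMesh C (bicB p)) (k k' : Fin 10 × Fin 4) :
    SameSide C (fstEdge (bicB p k)) (fstEdge (bicB p k')) := by
  classical
  -- boundary quadrilaterals are faces of cells
  have hopp : ∀ k, Opp C (fstEdge (bicB p k)) (fstEdge (bicB p (nxt k))) := by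
    intro k
    obtain ⟨q, hq⟩ := hm.bdry k
    refine ⟨q, ?_, ?_⟩
    · rw [hq]; rfl
    · rw [hq]
      simp only [fstEdge, bicB, (nxt_spec k).1, (nxt_spec k).2]
  have hiter : ∀ n k, SameSide C (fstEdge (bicB p k)) (fstEdge (bicB p (nxt^[n] k))) := by
    intro n
    induction n with
    | zero => intro k; exact Relation.EqvGen.refl _
    | succ n ih =>
      intro k
      rw [Function.iterate_succ, Function.comp_apply]
      exact Relation.EqvGen.trans _ _ _ (Relation.EqvGen.rel _ _ (hopp k)) (ih (nxt k))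
  have hrep : ∀ k, SameSide C (fstEdge (bicB p (rep (bicClass k)))) (fstEdge (bicB p k)) := by
    intro k
    have := hiter (num k) (rep (bicClass k))
    rwa [iter_spec k] at this
  -- the key step
  have key : ∀ e0 : P3 × P3, (∃ j : Fin 8, j.val < 6 ∧ SameSide C e0 (fstEdge (bicB p (rep j)))) →
      ∀ j : Fin 8, j.val < 6 → SameSide C e0 (fstEdge (bicB p (rep j))) := by
    rintro e0 ⟨j0, hj0, he0⟩
    set f : P3 → P3 → ℝ := fun x y => if SameSide C e0 (x, y) then 1 else 0 with hf
    have hinv : ∀ q : ι × (Fin 6 × Fin 4), f (outFace (C q.1) q.2).1 (outFace (C q.1) q.2).2.1 =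
        f (outFace (C q.1) q.2).2.2.2 (outFace (C q.1) q.2).2.2.1 := by
      intro q
      have ho : Opp C ((outFace (C q.1) q.2).1, (outFace (C q.1) q.2).2.1)
        ((outFace (C q.1) q.2).2.2.2, (outFace (C q.1) q.2).2.2.1) := ⟨q, rfl, rfl⟩
      have hiff : SameSide C e0 ((outFace (C q.1) q.2).1, (outFace (C q.1) q.2).2.1) ↔
          SameSide C e0 ((outFace (C q.1) q.2).2.2.2, (outFace (C q.1) q.2).2.2.1) :=
        ⟨fun h => Relation.EqvGen.trans _ _ _ h (Relation.EqvGen.rel _ _ ho),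
          fun h => Relation.EqvGen.trans _ _ _ h
            (Relation.EqvGen.symm _ _ (Relation.EqvGen.rel _ _ ho))⟩
      simp only [hf, hiff]
    have hlaw := law C (bicB p) hm f hinv
    set x : Fin 8 → ℝ := fun j => if SameSide C e0 (fstEdge (bicB p (rep j))) then 1 else 0 with hx
    have hfx : ∀ k, f (bicB p k).1 (bicB p k).2.1 = x (bicClass k) := by
      intro k
      have hiff : SameSide C e0 (fstEdge (bicB p k)) ↔
          SameSide C e0 (fstEdge (bicB p (rep (bicClass k)))) :=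
        ⟨fun h => Relation.EqvGen.trans _ _ _ h (Relation.EqvGen.symm _ _ (hrep k)),
          fun h => Relation.EqvGen.trans _ _ _ h (hrep k)⟩
      have : f (bicB p k).1 (bicB p k).2.1 = if SameSide C e0 (fstEdge (bicB p k)) then 1 else 0 :=
        rfl
      rw [this]
      simp only [hx, hiff]
    have hsum : ∑ j, x j * bicK p j = 0 := by
      rw [← hlaw]
      simp only [bicK, Finset.mul_sum, term]
      rw [Finset.sum_comm]
      refine Finset.sum_congr rfl fun k _ => ?_
      rw [Finset.sum_eq_single (bicClass k)]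
      · rw [if_pos rfl, hfx k]
      · intro j _ hj
        rw [if_neg (Ne.symm hj), mul_zero]
      · intro h
        exact absurd (Finset.mem_univ _) h
    have hx01 : ∀ j, x j = 0 ∨ x j = 1 := by
      intro j
      simp only [hx]
      by_cases h : SameSide C e0 (fstEdge (bicB p (rep j)))
      · right; rw [if_pos h]
      · left; rw [if_neg h]
    rcases hgen x hx01 hsum with h | h
    · exfalso
      have := h j0 hj0
      simp only [hx, if_pos he0] at this
      exact one_ne_zero this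
    · intro j hj
      by_contra hcon
      have := h j hj
      simp only [hx, if_neg hcon] at this
      exact zero_ne_one this
  -- all edges of the classes 0, …, 5 are equivalent
  have six : ∀ k k', (bicClass k).val < 6 → (bicClass k').val < 6 →
      SameSide C (fstEdge (bicB p k)) (fstEdge (bicB p k')) := by
    intro k k' hk hk'
    have h1 := key (fstEdge (bicB p k)) ⟨bicClass k, hk, Relation.EqvGen.symm _ _ (hrep k)⟩
      (bicClass k') hk'
    exact Relation.EqvGen.trans _ _ _ h1 (hrep k')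
  have hswap : ∀ k, (fstEdge (bicB p (rv k))).swap = fstEdge (bicB p k) := by
    intro k
    simp only [fstEdge, bicB, (rv_spec k).1, (rv_spec k).2, Prod.swap_prod_mk]
  -- every edge is equivalent to the edge number (2, 0)
  have hall : ∀ k, SameSide C (fstEdge (bicB p k)) (fstEdge (bicB p (2, 0))) := by
    intro k
    by_cases hk : (bicClass k).val < 6
    · exact six k (2, 0) hk (by decide)
    · have h1 := six (rv k) (2, 0) (rv_class k (by omega)) (by decide)
      have h2 := SameSide.swap h1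
      rw [hswap k] at h2
      have h3 : (fstEdge (bicB p (2, 0))).swap = fstEdge (bicB p (rv (2, 0))) := by
        rw [← hswap (2, 0)]
        rfl
      rw [h3] at h2
      exact Relation.EqvGen.trans _ _ _ h2 (six (rv (2, 0)) (2, 0) (by decide) (by decide))
  exact Relation.EqvGen.trans _ _ _ (hall k) (Relation.EqvGen.symm _ _ (hall k'))

end Pool.Agent.Lib.MP_2847c2_co
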