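import Pool.Agent.Lib.MP_2847c2_co.Law

/-!
# The law for a single hexahedron
-/

namespace Pool.Agent.Lib.MP_2847c2_co

/-- One face `t₀ t₁ t₂ t₃` of a hexahedron with opposite face `o₀ o₁ o₂ o₃`. -/
theorem face_sum (f : P3 → P3 → ℝ) (t0 t1 t2 t3 o0 o1 o2 o3 : P3)
    (hpo : det3 (o1 - o0) (o2 - o0) (o3 - o0) = 0)
    (q0 : Planar (o1, t1, t0, o0)) (q1 : Planar (o2, t2, t1, o1))
    (q2 : Planar (o3, t3, t2, o2)) (q3 : Planar (o0, t0, t3, o3))
    (c0 : det3 (o1 - o0) (o3 - o0) (t0 - o0) ≠ 0) (c1 : det3 (o2 - o1) (o0 - o1) (t1 - o1) ≠ 0)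
    (c2 : det3 (o3 - o2) (o1 - o2) (t2 - o2) ≠ 0) (c3 : det3 (o0 - o3) (o2 - o3) (t3 - o3) ≠ 0)
    (f0 : f o1 t1 = f o0 t0) (f1 : f o2 t2 = f o1 t1) (f2 : f o3 t3 = f o2 t2) :
    f o1 t1 * wt (o1, t1, t0, o0) + f o2 t2 * wt (o2, t2, t1, o1) +
      f o3 t3 * wt (o3, t3, t2, o2) + f o0 t0 * wt (o0, t0, t3, o3) = 0 := by
  set n := crs (o1 - o0) (o3 - o0) with hn
  have n1 : dot n (o1 - o0) = 0 := by
    simp only [hn, dot, crs, Matrix.cons_val_zero, Matrix.cons_val_one, Matrix.cons_val]; ring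
  have n3 : dot n (o3 - o0) = 0 := by
    simp only [hn, dot, crs, Matrix.cons_val_zero, Matrix.cons_val_one, Matrix.cons_val]; ring
  have n2 : dot n (o2 - o0) = 0 := by
    simp only [hn, dot, crs, Matrix.cons_val_zero, Matrix.cons_val_one, Matrix.cons_val]
    simp only [det3] at hpo
    linear_combination (-1) * hpo
  have hdotsub : ∀ x y z : P3, dot n (x - z) = dot n (x - y) + dot n (y - z) := by
    intro x y z; simp only [dot, Pi.sub_apply]; ring
  have hneg : ∀ x y : P3, dot n (x - y) = - dot n (y - x) := by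
    intro x y; simp only [dot, Pi.sub_apply]; ring
  -- all differences of `o`s are orthogonal to `n`
  have oo : ∀ x y : P3, dot n (x - o0) = 0 → dot n (y - o0) = 0 → dot n (x - y) = 0 := by
    intro x y hx hy
    rw [hdotsub x o0 y, hx, hneg o0 y, hy]; simp
  have n0 : dot n (o0 - o0) = 0 := by simp [dot]
  have h01 := oo o1 o0 n1 n0
  have hnn : dot n n ≠ 0 := by
    intro h
    have hz : n 0 = 0 ∧ n 1 = 0 ∧ n 2 = 0 := by
      simp only [dot] at h
      refine ⟨?_, ?_, ?_⟩ <;> nlinarith [sq_nonneg (n 0), sq_nonneg (n 1), sq_nonneg (n 2)]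
    apply c0
    rw [det3_eq, ← hn]
    simp [dot, hz.1, hz.2.1, hz.2.2]
  have d0 : dot n (t0 - o0) ≠ 0 := by
    intro h; apply c0; rw [det3_eq]; exact h
  have d1 : dot n (t1 - o1) ≠ 0 := dot_ne_zero (oo o2 o1 n2 n1) (oo o0 o1 n0 n1) hnn c1
  have d2 : dot n (t2 - o2) ≠ 0 := dot_ne_zero (oo o3 o2 n3 n2) (oo o1 o2 n1 n2) hnn c2
  have d3 : dot n (t3 - o3) ≠ 0 := dot_ne_zero (oo o0 o3 n0 n3) (oo o2 o3 n2 n3) hnn c3
  -- heights over the plane of the `o`s
  have step : ∀ (a b c d : P3), Planar (a, b, c, d) → dot n (a - o0) = 0 → dot n (d - o0) = 0 →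
      dot n (b - a) ≠ 0 → dot n (c - d) ≠ 0 → area2 a d b ≠ 0 →
      wt (a, b, c, d) = Real.log (dot n (c - o0) ^ 2) - Real.log (dot n (b - o0) ^ 2) := by
    intro a b c d hpl ha hd hb hc hab
    have e1 : dot n (b - a) = dot n (b - o0) := by
      rw [hdotsub b a o0, ha]; simp
    have e2 : dot n (c - a) = dot n (c - o0) := by
      rw [hdotsub c a o0, ha]; simp
    have e3 : dot n (c - d) = dot n (c - o0) := by
      rw [hdotsub c d o0, hd]; simp
    have rel := area_rel (n := n) (oo d a hd ha) hb hpl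
    rw [e1, e2] at rel
    have hb' : dot n (b - o0) ^ 2 ≠ 0 := by rw [← e1]; exact pow_ne_zero 2 hb
    have hc' : dot n (c - o0) ^ 2 ≠ 0 := by rw [← e3]; exact pow_ne_zero 2 hc
    have hac : area2 a d c ≠ 0 := by
      intro h
      rw [h, zero_mul] at rel
      rcases mul_eq_zero.mp rel.symm with h | h
      · exact hab h
      · exact hc' h
    have := congrArg Real.log rel
    rw [Real.log_mul hac hb', Real.log_mul hab hc'] at this
    simp only [wt]
    linarith
  have A1 : area2 o1 o0 t1 ≠ 0 := by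
    apply area2_ne_zero (n := o2 - o1)
    intro h; apply c1
    simp only [det3, Pi.sub_apply] at h ⊢
    linear_combination (-1) * h
  have A2 : area2 o2 o1 t2 ≠ 0 := by
    apply area2_ne_zero (n := o3 - o2)
    intro h; apply c2
    simp only [det3, Pi.sub_apply] at h ⊢
    linear_combination (-1) * h
  have A3 : area2 o3 o2 t3 ≠ 0 := by
    apply area2_ne_zero (n := o0 - o3)
    intro h; apply c3
    simp only [det3, Pi.sub_apply] at h ⊢
    linear_combination (-1) * h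
  have A0 : area2 o0 o3 t0 ≠ 0 := by
    apply area2_ne_zero (n := o1 - o0)
    intro h; apply c0
    simp only [det3, Pi.sub_apply] at h ⊢
    linear_combination (-1) * h
  rw [step o1 t1 t0 o0 q0 n1 n0 d1 d0 A1, step o2 t2 t1 o1 q1 n2 n1 d2 d1 A2,
    step o3 t3 t2 o2 q2 n3 n2 d3 d2 A3, step o0 t0 t3 o3 q3 n0 n3 d0 d3 A0, f2, f1, f0]
  ring

end Pool.Agent.Lib.MP_2847c2_co
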