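import Pool.Agent.Lib.MP_2847c2_co.Cell

/-!
# The sum of the weights over the 24 oriented faces of a hexahedron
-/

namespace Pool.Agent.Lib.MP_2847c2_co

/-- The contribution of an oriented quadrilateral. -/
noncomputable def term (f : P3 → P3 → ℝ) (q : Quad) : ℝ := f q.1 q.2.1 * wt q

theorem face_sum0 {h : Hexa} (hh : IsHexa h) (f : P3 → P3 → ℝ)
    (hf : ∀ s, f (outFace h s).1 (outFace h s).2.1 = f (outFace h s).2.2.2 (outFace h s).2.2.1) :
    term f (outFace h (2, 2)) + term f (outFace h (5, 2)) + term f (outFace h (3, 3)) + term f (outFace h (4, 3)) = 0 := by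
  have hpo : det3 (h 5 - h 1) (h 7 - h 1) (h 3 - h 1) = 0 := by
    have e : det3 (h 3 - h 1) (h 7 - h 1) (h 5 - h 1) = 0 := hh.planar (1, 0)
    simp only [det3] at e ⊢
    linear_combination (-1) * e
  have q0 : Planar (h 5, h 4, h 0, h 1) := hh.planar (2, 2)
  have q1 : Planar (h 7, h 6, h 4, h 5) := hh.planar (5, 2)
  have q2 : Planar (h 3, h 2, h 6, h 7) := hh.planar (3, 3)
  have q3 : Planar (h 1, h 0, h 2, h 3) := hh.planar (4, 3)
  have c0 : det3 (h 5 - h 1) (h 3 - h 1) (h 0 - h 1) ≠ 0 := by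
    intro e
    have e' : det3 (h 0 - h 1) (h 3 - h 1) (h 5 - h 1) ≠ 0 := hh.corner 1
    apply e'
    simp only [det3] at e ⊢
    linear_combination (-1) * e
  have c1 : det3 (h 7 - h 5) (h 1 - h 5) (h 4 - h 5) ≠ 0 := by
    intro e
    have e' : det3 (h 4 - h 5) (h 7 - h 5) (h 1 - h 5) ≠ 0 := hh.corner 5
    apply e'
    simp only [det3] at e ⊢
    linear_combination (1) * e
  have c2 : det3 (h 3 - h 7) (h 5 - h 7) (h 6 - h 7) ≠ 0 := by
    intro e
    have e' : det3 (h 6 - h 7) (h 5 - h 7) (h 3 - h 7) ≠ 0 := hh.corner 7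
    apply e'
    simp only [det3] at e ⊢
    linear_combination (-1) * e
  have c3 : det3 (h 1 - h 3) (h 7 - h 3) (h 2 - h 3) ≠ 0 := by
    intro e
    have e' : det3 (h 2 - h 3) (h 1 - h 3) (h 7 - h 3) ≠ 0 := hh.corner 3
    apply e'
    simp only [det3] at e ⊢
    linear_combination (1) * e
  have f0 : f (h 5) (h 4) = f (h 1) (h 0) := hf (2, 2)
  have f1 : f (h 7) (h 6) = f (h 5) (h 4) := hf (5, 2)
  have f2 : f (h 3) (h 2) = f (h 7) (h 6) := hf (3, 3)
  exact face_sum f (h 0) (h 4) (h 6) (h 2) (h 1) (h 5) (h 7) (h 3)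
    hpo q0 q1 q2 q3 c0 c1 c2 c3 f0 f1 f2

theorem face_sum1 {h : Hexa} (hh : IsHexa h) (f : P3 → P3 → ℝ)
    (hf : ∀ s, f (outFace h s).1 (outFace h s).2.1 = f (outFace h s).2.2.2 (outFace h s).2.2.1) :
    term f (outFace h (4, 1)) + term f (outFace h (3, 1)) + term f (outFace h (5, 0)) + term f (outFace h (2, 0)) = 0 := by
  have hpo : det3 (h 2 - h 0) (h 6 - h 0) (h 4 - h 0) = 0 := by
    have e : det3 (h 4 - h 0) (h 6 - h 0) (h 2 - h 0) = 0 := hh.planar (0, 0)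
    simp only [det3] at e ⊢
    linear_combination (-1) * e
  have q0 : Planar (h 2, h 3, h 1, h 0) := hh.planar (4, 1)
  have q1 : Planar (h 6, h 7, h 3, h 2) := hh.planar (3, 1)
  have q2 : Planar (h 4, h 5, h 7, h 6) := hh.planar (5, 0)
  have q3 : Planar (h 0, h 1, h 5, h 4) := hh.planar (2, 0)
  have c0 : det3 (h 2 - h 0) (h 4 - h 0) (h 1 - h 0) ≠ 0 := by
    intro e
    have e' : det3 (h 1 - h 0) (h 2 - h 0) (h 4 - h 0) ≠ 0 := hh.corner 0
    apply e'
    simp only [det3] at e ⊢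
    linear_combination (1) * e
  have c1 : det3 (h 6 - h 2) (h 0 - h 2) (h 3 - h 2) ≠ 0 := by
    intro e
    have e' : det3 (h 3 - h 2) (h 0 - h 2) (h 6 - h 2) ≠ 0 := hh.corner 2
    apply e'
    simp only [det3] at e ⊢
    linear_combination (-1) * e
  have c2 : det3 (h 4 - h 6) (h 2 - h 6) (h 7 - h 6) ≠ 0 := by
    intro e
    have e' : det3 (h 7 - h 6) (h 4 - h 6) (h 2 - h 6) ≠ 0 := hh.corner 6
    apply e'
    simp only [det3] at e ⊢
    linear_combination (1) * e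
  have c3 : det3 (h 0 - h 4) (h 6 - h 4) (h 5 - h 4) ≠ 0 := by
    intro e
    have e' : det3 (h 5 - h 4) (h 6 - h 4) (h 0 - h 4) ≠ 0 := hh.corner 4
    apply e'
    simp only [det3] at e ⊢
    linear_combination (-1) * e
  have f0 : f (h 2) (h 3) = f (h 0) (h 1) := hf (4, 1)
  have f1 : f (h 6) (h 7) = f (h 2) (h 3) := hf (3, 1)
  have f2 : f (h 4) (h 5) = f (h 6) (h 7) := hf (5, 0)
  exact face_sum f (h 1) (h 3) (h 7) (h 5) (h 0) (h 2) (h 6) (h 4)
    hpo q0 q1 q2 q3 c0 c1 c2 c3 f0 f1 f2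

theorem face_sum2 {h : Hexa} (hh : IsHexa h) (f : P3 → P3 → ℝ)
    (hf : ∀ s, f (outFace h s).1 (outFace h s).2.1 = f (outFace h s).2.2.2 (outFace h s).2.2.1) :
    term f (outFace h (4, 2)) + term f (outFace h (1, 2)) + term f (outFace h (5, 3)) + term f (outFace h (0, 3)) = 0 := by
  have hpo : det3 (h 3 - h 2) (h 7 - h 2) (h 6 - h 2) = 0 := by
    have e : det3 (h 6 - h 2) (h 7 - h 2) (h 3 - h 2) = 0 := hh.planar (3, 0)
    simp only [det3] at e ⊢
    linear_combination (-1) * e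
  have q0 : Planar (h 3, h 1, h 0, h 2) := hh.planar (4, 2)
  have q1 : Planar (h 7, h 5, h 1, h 3) := hh.planar (1, 2)
  have q2 : Planar (h 6, h 4, h 5, h 7) := hh.planar (5, 3)
  have q3 : Planar (h 2, h 0, h 4, h 6) := hh.planar (0, 3)
  have c0 : det3 (h 3 - h 2) (h 6 - h 2) (h 0 - h 2) ≠ 0 := by
    intro e
    have e' : det3 (h 3 - h 2) (h 0 - h 2) (h 6 - h 2) ≠ 0 := hh.corner 2
    apply e'
    simp only [det3] at e ⊢
    linear_combination (-1) * e
  have c1 : det3 (h 7 - h 3) (h 2 - h 3) (h 1 - h 3) ≠ 0 := by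
    intro e
    have e' : det3 (h 2 - h 3) (h 1 - h 3) (h 7 - h 3) ≠ 0 := hh.corner 3
    apply e'
    simp only [det3] at e ⊢
    linear_combination (1) * e
  have c2 : det3 (h 6 - h 7) (h 3 - h 7) (h 5 - h 7) ≠ 0 := by
    intro e
    have e' : det3 (h 6 - h 7) (h 5 - h 7) (h 3 - h 7) ≠ 0 := hh.corner 7
    apply e'
    simp only [det3] at e ⊢
    linear_combination (-1) * e
  have c3 : det3 (h 2 - h 6) (h 7 - h 6) (h 4 - h 6) ≠ 0 := by
    intro e
    have e' : det3 (h 7 - h 6) (h 4 - h 6) (h 2 - h 6) ≠ 0 := hh.corner 6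
    apply e'
    simp only [det3] at e ⊢
    linear_combination (1) * e
  have f0 : f (h 3) (h 1) = f (h 2) (h 0) := hf (4, 2)
  have f1 : f (h 7) (h 5) = f (h 3) (h 1) := hf (1, 2)
  have f2 : f (h 6) (h 4) = f (h 7) (h 5) := hf (5, 3)
  exact face_sum f (h 0) (h 1) (h 5) (h 4) (h 2) (h 3) (h 7) (h 6)
    hpo q0 q1 q2 q3 c0 c1 c2 c3 f0 f1 f2

theorem face_sum3 {h : Hexa} (hh : IsHexa h) (f : P3 → P3 → ℝ)
    (hf : ∀ s, f (outFace h s).1 (outFace h s).2.1 = f (outFace h s).2.2.2 (outFace h s).2.2.1) :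
    term f (outFace h (0, 1)) + term f (outFace h (5, 1)) + term f (outFace h (1, 0)) + term f (outFace h (4, 0)) = 0 := by
  have hpo : det3 (h 4 - h 0) (h 5 - h 0) (h 1 - h 0) = 0 := by
    have e : det3 (h 1 - h 0) (h 5 - h 0) (h 4 - h 0) = 0 := hh.planar (2, 0)
    simp only [det3] at e ⊢
    linear_combination (-1) * e
  have q0 : Planar (h 4, h 6, h 2, h 0) := hh.planar (0, 1)
  have q1 : Planar (h 5, h 7, h 6, h 4) := hh.planar (5, 1)
  have q2 : Planar (h 1, h 3, h 7, h 5) := hh.planar (1, 0)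
  have q3 : Planar (h 0, h 2, h 3, h 1) := hh.planar (4, 0)
  have c0 : det3 (h 4 - h 0) (h 1 - h 0) (h 2 - h 0) ≠ 0 := by
    intro e
    have e' : det3 (h 1 - h 0) (h 2 - h 0) (h 4 - h 0) ≠ 0 := hh.corner 0
    apply e'
    simp only [det3] at e ⊢
    linear_combination (1) * e
  have c1 : det3 (h 5 - h 4) (h 0 - h 4) (h 6 - h 4) ≠ 0 := by
    intro e
    have e' : det3 (h 5 - h 4) (h 6 - h 4) (h 0 - h 4) ≠ 0 := hh.corner 4
    apply e'
    simp only [det3] at e ⊢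
    linear_combination (-1) * e
  have c2 : det3 (h 1 - h 5) (h 4 - h 5) (h 7 - h 5) ≠ 0 := by
    intro e
    have e' : det3 (h 4 - h 5) (h 7 - h 5) (h 1 - h 5) ≠ 0 := hh.corner 5
    apply e'
    simp only [det3] at e ⊢
    linear_combination (1) * e
  have c3 : det3 (h 0 - h 1) (h 5 - h 1) (h 3 - h 1) ≠ 0 := by
    intro e
    have e' : det3 (h 0 - h 1) (h 3 - h 1) (h 5 - h 1) ≠ 0 := hh.corner 1
    apply e'
    simp only [det3] at e ⊢
    linear_combination (-1) * e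
  have f0 : f (h 4) (h 6) = f (h 0) (h 2) := hf (0, 1)
  have f1 : f (h 5) (h 7) = f (h 4) (h 6) := hf (5, 1)
  have f2 : f (h 1) (h 3) = f (h 5) (h 7) := hf (1, 0)
  exact face_sum f (h 2) (h 6) (h 7) (h 3) (h 0) (h 4) (h 5) (h 1)
    hpo q0 q1 q2 q3 c0 c1 c2 c3 f0 f1 f2

theorem face_sum4 {h : Hexa} (hh : IsHexa h) (f : P3 → P3 → ℝ)
    (hf : ∀ s, f (outFace h s).1 (outFace h s).2.1 = f (outFace h s).2.2.2 (outFace h s).2.2.1) :
    term f (outFace h (0, 2)) + term f (outFace h (3, 2)) + term f (outFace h (1, 3)) + term f (outFace h (2, 3)) = 0 := by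
  have hpo : det3 (h 6 - h 4) (h 7 - h 4) (h 5 - h 4) = 0 := by
    have e : det3 (h 5 - h 4) (h 7 - h 4) (h 6 - h 4) = 0 := hh.planar (5, 0)
    simp only [det3] at e ⊢
    linear_combination (-1) * e
  have q0 : Planar (h 6, h 2, h 0, h 4) := hh.planar (0, 2)
  have q1 : Planar (h 7, h 3, h 2, h 6) := hh.planar (3, 2)
  have q2 : Planar (h 5, h 1, h 3, h 7) := hh.planar (1, 3)
  have q3 : Planar (h 4, h 0, h 1, h 5) := hh.planar (2, 3)
  have c0 : det3 (h 6 - h 4) (h 5 - h 4) (h 0 - h 4) ≠ 0 := by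
    intro e
    have e' : det3 (h 5 - h 4) (h 6 - h 4) (h 0 - h 4) ≠ 0 := hh.corner 4
    apply e'
    simp only [det3] at e ⊢
    linear_combination (-1) * e
  have c1 : det3 (h 7 - h 6) (h 4 - h 6) (h 2 - h 6) ≠ 0 := by
    intro e
    have e' : det3 (h 7 - h 6) (h 4 - h 6) (h 2 - h 6) ≠ 0 := hh.corner 6
    apply e'
    simp only [det3] at e ⊢
    linear_combination (1) * e
  have c2 : det3 (h 5 - h 7) (h 6 - h 7) (h 3 - h 7) ≠ 0 := by
    intro e
    have e' : det3 (h 6 - h 7) (h 5 - h 7) (h 3 - h 7) ≠ 0 := hh.corner 7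
    apply e'
    simp only [det3] at e ⊢
    linear_combination (-1) * e
  have c3 : det3 (h 4 - h 5) (h 7 - h 5) (h 1 - h 5) ≠ 0 := by
    intro e
    have e' : det3 (h 4 - h 5) (h 7 - h 5) (h 1 - h 5) ≠ 0 := hh.corner 5
    apply e'
    simp only [det3] at e ⊢
    linear_combination (1) * e
  have f0 : f (h 6) (h 2) = f (h 4) (h 0) := hf (0, 2)
  have f1 : f (h 7) (h 3) = f (h 6) (h 2) := hf (3, 2)
  have f2 : f (h 5) (h 1) = f (h 7) (h 3) := hf (1, 3)
  exact face_sum f (h 0) (h 2) (h 3) (h 1) (h 4) (h 6) (h 7) (h 5)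
    hpo q0 q1 q2 q3 c0 c1 c2 c3 f0 f1 f2

theorem face_sum5 {h : Hexa} (hh : IsHexa h) (f : P3 → P3 → ℝ)
    (hf : ∀ s, f (outFace h s).1 (outFace h s).2.1 = f (outFace h s).2.2.2 (outFace h s).2.2.1) :
    term f (outFace h (2, 1)) + term f (outFace h (1, 1)) + term f (outFace h (3, 0)) + term f (outFace h (0, 0)) = 0 := by
  have hpo : det3 (h 1 - h 0) (h 3 - h 0) (h 2 - h 0) = 0 := by
    have e : det3 (h 2 - h 0) (h 3 - h 0) (h 1 - h 0) = 0 := hh.planar (4, 0)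
    simp only [det3] at e ⊢
    linear_combination (-1) * e
  have q0 : Planar (h 1, h 5, h 4, h 0) := hh.planar (2, 1)
  have q1 : Planar (h 3, h 7, h 5, h 1) := hh.planar (1, 1)
  have q2 : Planar (h 2, h 6, h 7, h 3) := hh.planar (3, 0)
  have q3 : Planar (h 0, h 4, h 6, h 2) := hh.planar (0, 0)
  have c0 : det3 (h 1 - h 0) (h 2 - h 0) (h 4 - h 0) ≠ 0 := by
    intro e
    have e' : det3 (h 1 - h 0) (h 2 - h 0) (h 4 - h 0) ≠ 0 := hh.corner 0
    apply e'
    simp only [det3] at e ⊢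
    linear_combination (1) * e
  have c1 : det3 (h 3 - h 1) (h 0 - h 1) (h 5 - h 1) ≠ 0 := by
    intro e
    have e' : det3 (h 0 - h 1) (h 3 - h 1) (h 5 - h 1) ≠ 0 := hh.corner 1
    apply e'
    simp only [det3] at e ⊢
    linear_combination (-1) * e
  have c2 : det3 (h 2 - h 3) (h 1 - h 3) (h 7 - h 3) ≠ 0 := by
    intro e
    have e' : det3 (h 2 - h 3) (h 1 - h 3) (h 7 - h 3) ≠ 0 := hh.corner 3
    apply e'
    simp only [det3] at e ⊢
    linear_combination (1) * e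
  have c3 : det3 (h 0 - h 2) (h 3 - h 2) (h 6 - h 2) ≠ 0 := by
    intro e
    have e' : det3 (h 3 - h 2) (h 0 - h 2) (h 6 - h 2) ≠ 0 := hh.corner 2
    apply e'
    simp only [det3] at e ⊢
    linear_combination (-1) * e
  have f0 : f (h 1) (h 5) = f (h 0) (h 4) := hf (2, 1)
  have f1 : f (h 3) (h 7) = f (h 1) (h 5) := hf (1, 1)
  have f2 : f (h 2) (h 6) = f (h 3) (h 7) := hf (3, 0)
  exact face_sum f (h 4) (h 5) (h 7) (h 6) (h 0) (h 1) (h 3) (h 2)
    hpo q0 q1 q2 q3 c0 c1 c2 c3 f0 f1 f2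

/-- The law for a single hexahedron. -/
theorem cell_sum {h : Hexa} (hh : IsHexa h) (f : P3 → P3 → ℝ)
    (hf : ∀ s, f (outFace h s).1 (outFace h s).2.1 = f (outFace h s).2.2.2 (outFace h s).2.2.1) :
    ∑ s : Fin 6 × Fin 4, term f (outFace h s) = 0 := by
  rw [Fintype.sum_prod_type]
  simp only [Fin.sum_univ_succ, Fin.succ_zero_eq_one, Fin.succ_one_eq_two,
    Finset.univ_unique, Fin.default_eq_zero, Finset.sum_singleton]
  have e0 := face_sum0 hh f hf
  have e1 := face_sum1 hh f hf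
  have e2 := face_sum2 hh f hf
  have e3 := face_sum3 hh f hf
  have e4 := face_sum4 hh f hf
  have e5 := face_sum5 hh f hf
  simp only [Fin.reduceSucc]
  linear_combination e0 + e1 + e2 + e3 + e4 + e5

end Pool.Agent.Lib.MP_2847c2_co
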