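import Mathlib

/-!
# Hexahedra with planar faces and hexahedral meshes: definitions
-/

namespace Pool.Agent.Lib.MP_2847c2_co

/-- Points of `ℝ³`. -/
abbrev P3 := Fin 3 → ℝ

/-- A quadrilateral `(a, b, c, d)`: its vertices in cyclic order, with a chosen first vertex and
a chosen sense of rotation. -/
abbrev Quad := P3 × P3 × P3 × P3

/-- The determinant of three vectors. -/
def det3 (u v w : P3) : ℝ :=
  u 0 * (v 1 * w 2 - v 2 * w 1) - u 1 * (v 0 * w 2 - v 2 * w 0) + u 2 * (v 0 * w 1 - v 1 * w 0)

/-- `|(q - p) × (r - p)|²`, the square of twice the area of the triangle `p q r`. -/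
def area2 (p q r : P3) : ℝ :=
  ((q - p) 1 * (r - p) 2 - (q - p) 2 * (r - p) 1) ^ 2 +
  ((q - p) 2 * (r - p) 0 - (q - p) 0 * (r - p) 2) ^ 2 +
  ((q - p) 0 * (r - p) 1 - (q - p) 1 * (r - p) 0) ^ 2

/-- The four points of a quadrilateral lie in a plane. -/
def Planar (q : Quad) : Prop :=
  det3 (q.2.1 - q.1) (q.2.2.1 - q.1) (q.2.2.2 - q.1) = 0

/-- The same quadrilateral with the opposite sense of rotation. -/
def rev (q : Quad) : Quad := (q.2.2.2, q.2.2.1, q.2.1, q.1)

/-- A labelled hexahedron: the vertex number `x + 2 y + 4 z` corresponds to the vertex `(x, y, z)` of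
the cube `{0, 1}³`. -/
abbrev Hexa := Fin 8 → P3

/-- The six faces of the cube `{0, 1}³`, with the vertices in counterclockwise order as seen from
outside. -/
def cubeFace : Fin 6 → Fin 4 → Fin 8 :=
  ![![0, 4, 6, 2], ![1, 3, 7, 5], ![0, 1, 5, 4], ![2, 6, 7, 3], ![0, 2, 3, 1], ![4, 5, 7, 6]]

/-- The three neighbours of a vertex of the cube. -/
def cubeNbr : Fin 8 → Fin 3 → Fin 8 :=
  ![![1, 2, 4], ![0, 3, 5], ![3, 0, 6], ![2, 1, 7], ![5, 6, 0], ![4, 7, 1], ![7, 4, 2], ![6, 5, 3]]

/-- The `24` outward oriented faces of a labelled hexahedron (six faces, four choices of the first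
vertex each). -/
def outFace (h : Hexa) (s : Fin 6 × Fin 4) : Quad :=
  (h (cubeFace s.1 s.2), h (cubeFace s.1 (s.2 + 1)), h (cubeFace s.1 (s.2 + 2)),
    h (cubeFace s.1 (s.2 + 3)))

/-- A hexahedron with planar faces: the four vertices of each face are coplanar and the three edges
at each vertex are linearly independent. -/
structure IsHexa (h : Hexa) : Prop where
  planar : ∀ s, Planar (outFace h s)
  corner : ∀ v, det3 (h (cubeNbr v 0) - h v) (h (cubeNbr v 1) - h v) (h (cubeNbr v 2) - h v) ≠ 0

/-- `C` is a hexahedral mesh with planar faces and boundary `B`. Here `C` is a finite family of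
labelled hexahedra and `B` a finite family of oriented quadrilaterals which contains with a
quadrilateral `(a, b, c, d)` also `(b, c, d, a)`, `(c, d, a, b)` and `(d, a, b, c)`. Every
quadrilateral of `B` is an outward face of exactly one cell, and every other face of a cell is a face
of exactly one other cell, which induces the opposite sense of rotation on it. -/
structure IsMesh {ι κ : Type} (C : ι → Hexa) (B : κ → Quad) : Prop where
  hexa : ∀ i, IsHexa (C i)
  binj : Function.Injective B
  inj : ∀ p p' : ι × (Fin 6 × Fin 4), outFace (C p.1) p.2 = outFace (C p'.1) p'.2 → p = p'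
  bdry : ∀ k, ∃ p : ι × (Fin 6 × Fin 4), outFace (C p.1) p.2 = B k
  bdry_out : ∀ k, ∀ p : ι × (Fin 6 × Fin 4), outFace (C p.1) p.2 ≠ rev (B k)
  inner : ∀ p : ι × (Fin 6 × Fin 4), (∃ k, B k = outFace (C p.1) p.2) ∨
    ∃ p' : ι × (Fin 6 × Fin 4), outFace (C p'.1) p'.2 = rev (outFace (C p.1) p.2)

/-- Opposite edges of a face of a cell, directed in parallel: in the face `(a, b, c, d)` these are
`(a, b)` and `(d, c)`. -/
def Opp {ι : Type} (C : ι → Hexa) (e e' : P3 × P3) : Prop :=
  ∃ p : ι × (Fin 6 × Fin 4), e = ((outFace (C p.1) p.2).1, (outFace (C p.1) p.2).2.1) ∧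
    e' = ((outFace (C p.1) p.2).2.2.2, (outFace (C p.1) p.2).2.2.1)

/-- Directed edges joined by a chain of opposite edges, directed in parallel. The classes of this
relation are the sides of the sheets (dual surfaces) of the mesh; a sheet is one-sided if `(x, y)` and
`(y, x)` are equivalent for an edge `{x, y}` crossing it. -/
def SameSide {ι : Type} (C : ι → Hexa) : (P3 × P3) → (P3 × P3) → Prop :=
  Relation.EqvGen (Opp C)

/-- The weight of an oriented quadrilateral `(a, b, c, d)`: twice the logarithm of the quotient of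
the distances of `c` and of `b` from the line `a d`. -/
noncomputable def wt (q : Quad) : ℝ :=
  Real.log (area2 q.1 q.2.2.2 q.2.2.1) - Real.log (area2 q.1 q.2.2.2 q.2.1)

end Pool.Agent.Lib.MP_2847c2_co
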