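import Pool.Agent.Lib.MP_2847c2_co.Bicuboid

/-!
# An explicit convex bicuboid which is warped and generic
-/

namespace Pool.Agent.Lib.MP_2847c2_co

/-- A bicuboid is convex: its ten faces are planar, and each lies (with its vertices in strictly
convex position and in counterclockwise order as seen from outside) in a supporting plane which
contains no other vertex. -/
def ConvexBic (p : Fin 12 → P3) : Prop :=
  (∀ k, Planar (bicB p k)) ∧ ∀ k : Fin 10 × Fin 4, ∀ v, (∀ m, bicFace k.1 m ≠ v) →
    det3 ((bicB p k).2.1 - (bicB p k).1) ((bicB p k).2.2.1 - (bicB p k).1)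
      (p v - (bicB p k).1) < 0

/-- The integer coordinates of the vertices of the example. -/
def exZ : Fin 12 → Fin 3 → ℤ :=
  ![![8, -8, -8], ![8, 6, -8], ![4, 5, -8], ![4, -8, -8],
    ![8, -8, 4], ![8, 8, -4], ![-8, 8, 4], ![-8, -8, 4],
    ![5, -4, 8], ![2, 8, 8], ![-6, 8, 8], ![-6, -4, 8]]

/-- The vertices of the example. -/
def exP (v : Fin 12) : P3 := fun i => (exZ v i : ℝ)

namespace Ex

def detZ (u v w : Fin 3 → ℤ) : ℤ :=
  u 0 * (v 1 * w 2 - v 2 * w 1) - u 1 * (v 0 * w 2 - v 2 * w 0) + u 2 * (v 0 * w 1 - v 1 * w 0)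

def areaZ (p q r : Fin 3 → ℤ) : ℤ :=
  ((q 1 - p 1) * (r 2 - p 2) - (q 2 - p 2) * (r 1 - p 1)) ^ 2 +
  ((q 2 - p 2) * (r 0 - p 0) - (q 0 - p 0) * (r 2 - p 2)) ^ 2 +
  ((q 0 - p 0) * (r 1 - p 1) - (q 1 - p 1) * (r 0 - p 0)) ^ 2

theorem det_cast (a b c d : Fin 12) : det3 (exP b - exP a) (exP c - exP a) (exP d - exP a) =
    (detZ (fun i => exZ b i - exZ a i) (fun i => exZ c i - exZ a i)
      (fun i => exZ d i - exZ a i) : ℝ) := by
  simp only [det3, detZ, exP, Pi.sub_apply]
  push_cast
  ring

theorem area_cast (a b c : Fin 12) : area2 (exP a) (exP b) (exP c) =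
    (areaZ (exZ a) (exZ b) (exZ c) : ℝ) := by
  simp only [area2, areaZ, exP, Pi.sub_apply]
  push_cast
  ring

def A (k : Fin 10 × Fin 4) : ℤ :=
  areaZ (exZ (bicFace k.1 k.2)) (exZ (bicFace k.1 (k.2 + 3))) (exZ (bicFace k.1 (k.2 + 2)))

def D (k : Fin 10 × Fin 4) : ℤ :=
  areaZ (exZ (bicFace k.1 k.2)) (exZ (bicFace k.1 (k.2 + 3))) (exZ (bicFace k.1 (k.2 + 1)))

theorem A_pos : ∀ k, 0 < A k := by decide +kernel

theorem D_pos : ∀ k, 0 < D k := by decide +kernel

theorem wt_eq (k : Fin 10 × Fin 4) :
    wt (bicB exP k) = Real.log (A k : ℝ) - Real.log (D k : ℝ) := by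
  simp only [wt, bicB, area_cast, A, D]

theorem subsets : ∀ s : Fin 8 → Bool,
    ((∏ k, if s (bicClass k) then A k else 1) = ∏ k, if s (bicClass k) then D k else 1) →
    (∀ j : Fin 8, j.val < 6 → s j = false) ∨ (∀ j : Fin 8, j.val < 6 → s j = true) := by
  decide +kernel

theorem det_all : ∀ k : Fin 10 × Fin 4,
    detZ (fun i => exZ (bicFace k.1 (k.2 + 1)) i - exZ (bicFace k.1 k.2) i)
      (fun i => exZ (bicFace k.1 (k.2 + 2)) i - exZ (bicFace k.1 k.2) i)
      (fun i => exZ (bicFace k.1 (k.2 + 3)) i - exZ (bicFace k.1 k.2) i) = 0 ∧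
    ∀ v, (∀ m, bicFace k.1 m ≠ v) →
    detZ (fun i => exZ (bicFace k.1 (k.2 + 1)) i - exZ (bicFace k.1 k.2) i)
      (fun i => exZ (bicFace k.1 (k.2 + 2)) i - exZ (bicFace k.1 k.2) i)
      (fun i => exZ v i - exZ (bicFace k.1 k.2) i) < 0 := by
  decide +kernel

end Ex

open Ex

theorem exP_convex : ConvexBic exP := by
  constructor
  · intro k
    have := (det_all k).1
    simp only [Planar, bicB]
    rw [det_cast, this, Int.cast_zero]
  · intro k v hv
    have := (det_all k).2 v hv
    simp only [bicB]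
    rw [det_cast]
    exact_mod_cast this

theorem exP_warped : ¬ Planar (exP 4, exP 5, exP 6, exP 7) := by
  simp only [Planar]
  rw [det_cast]
  have : detZ (fun i => exZ 5 i - exZ 4 i) (fun i => exZ 6 i - exZ 4 i)
    (fun i => exZ 7 i - exZ 4 i) ≠ 0 := by decide +kernel
  exact_mod_cast this

theorem exP_generic : Generic exP := by
  intro x hx hsum
  classical
  set s : Fin 8 → Bool := fun j => decide (x j = 1) with hs
  have hxs : ∀ j, x j = if s j then 1 else 0 := by
    intro j
    rcases hx j with h | h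
    · simp [hs, h]
    · simp [hs, h]
  have e : ∑ j, x j * bicK exP j =
      ∑ k, if s (bicClass k) then (Real.log (A k : ℝ) - Real.log (D k : ℝ)) else 0 := by
    simp only [bicK, Finset.mul_sum]
    rw [Finset.sum_comm]
    refine Finset.sum_congr rfl fun k _ => ?_
    rw [Finset.sum_eq_single (bicClass k)]
    · rw [if_pos rfl, hxs (bicClass k), wt_eq k]
      by_cases h : s (bicClass k) <;> simp [h]
    · intro j _ hj
      rw [if_neg (Ne.symm hj), mul_zero]
    · intro h
      exact absurd (Finset.mem_univ _) h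
  have hA : Real.log ((∏ k, if s (bicClass k) then A k else 1 : ℤ) : ℝ) =
      ∑ k, if s (bicClass k) then Real.log (A k : ℝ) else 0 := by
    push_cast
    rw [Real.log_prod]
    · refine Finset.sum_congr rfl fun k _ => ?_
      by_cases h : s (bicClass k) <;> simp [h]
    · intro k _
      by_cases h : s (bicClass k)
      · simp only [h, if_true]
        exact_mod_cast (A_pos k).ne'
      · simp [h]
  have hD : Real.log ((∏ k, if s (bicClass k) then D k else 1 : ℤ) : ℝ) =
      ∑ k, if s (bicClass k) then Real.log (D k : ℝ) else 0 := by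
    push_cast
    rw [Real.log_prod]
    · refine Finset.sum_congr rfl fun k _ => ?_
      by_cases h : s (bicClass k) <;> simp [h]
    · intro k _
      by_cases h : s (bicClass k)
      · simp only [h, if_true]
        exact_mod_cast (D_pos k).ne'
      · simp [h]
  have hPA : 0 < (∏ k, if s (bicClass k) then A k else 1 : ℤ) := by
    refine Finset.prod_pos fun k _ => ?_
    by_cases h : s (bicClass k)
    · simp only [h, if_true]; exact A_pos k
    · simp [h]
  have hPD : 0 < (∏ k, if s (bicClass k) then D k else 1 : ℤ) := by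
    refine Finset.prod_pos fun k _ => ?_
    by_cases h : s (bicClass k)
    · simp only [h, if_true]; exact D_pos k
    · simp [h]
  have hlog : Real.log ((∏ k, if s (bicClass k) then A k else 1 : ℤ) : ℝ) =
      Real.log ((∏ k, if s (bicClass k) then D k else 1 : ℤ) : ℝ) := by
    rw [hA, hD]
    have h0 : ∑ k, (if s (bicClass k) then (Real.log (A k : ℝ) - Real.log (D k : ℝ)) else 0) =
        ∑ k, (if s (bicClass k) then Real.log (A k : ℝ) else 0) -
        ∑ k, (if s (bicClass k) then Real.log (D k : ℝ) else 0) := by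
      rw [← Finset.sum_sub_distrib]
      refine Finset.sum_congr rfl fun k _ => ?_
      by_cases h : s (bicClass k) <;> simp [h]
    rw [e, h0] at hsum
    linarith
  have hprod : (∏ k, if s (bicClass k) then A k else 1 : ℤ) =
      ∏ k, if s (bicClass k) then D k else 1 := by
    have := Real.log_injOn_pos (Set.mem_Ioi.2 (by exact_mod_cast hPA))
      (Set.mem_Ioi.2 (by exact_mod_cast hPD)) hlog
    exact_mod_cast this
  rcases subsets s hprod with h | h
  · left
    intro j hj
    rw [hxs j, h j hj]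
    simp
  · right
    intro j hj
    rw [hxs j, h j hj]
    simp

end Pool.Agent.Lib.MP_2847c2_co
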