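import Pool.Agent.Lib.MP_2847c2_co.Defs

/-!
# The law for a single hexahedron and for a mesh
-/

namespace Pool.Agent.Lib.MP_2847c2_co

/-- dot product -/
def dot (u v : P3) : ℝ := u 0 * v 0 + u 1 * v 1 + u 2 * v 2

/-- cross product -/
def crs (u v : P3) : P3 :=
  ![u 1 * v 2 - u 2 * v 1, u 2 * v 0 - u 0 * v 2, u 0 * v 1 - u 1 * v 0]

theorem det3_eq (u v w : P3) : det3 u v w = dot (crs u v) w := by
  simp only [det3, dot, crs, Matrix.cons_val_zero, Matrix.cons_val_one, Matrix.cons_val]
  ring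

theorem area2_eq (p q r : P3) : area2 p q r = dot (crs (q - p) (r - p)) (crs (q - p) (r - p)) := by
  simp only [area2, dot, crs, Matrix.cons_val_zero, Matrix.cons_val_one, Matrix.cons_val]
  ring

/-- If `u` and `y` are orthogonal to `n` and coplanar with a vector `v` which is not orthogonal to
`n`, then `u × y = 0`. -/
theorem crs_eq_zero {n u v y : P3} (hu : dot n u = 0) (hy : dot n y = 0) (hv : dot n v ≠ 0)
    (hd : det3 u v y = 0) : crs u y = 0 := by
  have key : ∀ i, crs u y i * dot n v = 0 := by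
    intro i
    simp only [dot] at hu hy
    simp only [det3] at hd
    fin_cases i <;> simp only [crs, dot, Fin.zero_eta, Fin.mk_one, Fin.reduceFinMk,
      Matrix.cons_val_zero, Matrix.cons_val_one, Matrix.cons_val]
    · linear_combination (u 1 * v 2 - u 2 * v 1) * hy - (y 1 * v 2 - y 2 * v 1) * hu - n 0 * hd
    · linear_combination (u 2 * v 0 - u 0 * v 2) * hy - (y 2 * v 0 - y 0 * v 2) * hu - n 1 * hd
    · linear_combination (u 0 * v 1 - u 1 * v 0) * hy - (y 0 * v 1 - y 1 * v 0) * hu - n 2 * hd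
  funext i
  have := key i
  rcases mul_eq_zero.mp this with h | h
  · simpa using h
  · exact absurd h hv

/-- The relation between the areas and the distances from a plane through `a` and `d`. -/
theorem area_rel {n a b c d : P3} (hd : dot n (d - a) = 0) (hb : dot n (b - a) ≠ 0)
    (hpl : Planar (a, b, c, d)) :
    area2 a d c * dot n (b - a) ^ 2 = area2 a d b * dot n (c - a) ^ 2 := by
  set u := d - a with hu
  set v := b - a with hv
  set w := c - a with hw
  have hpl' : det3 v w u = 0 := hpl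
  have h0 : crs u (dot n v • w - dot n w • v) = 0 := by
    apply crs_eq_zero hd _ hb
    · simp only [det3, Pi.sub_apply, Pi.smul_apply, smul_eq_mul] at hpl' ⊢
      linear_combination (dot n v) * hpl'
    · simp only [dot, Pi.sub_apply, Pi.smul_apply, smul_eq_mul]
      ring
  have e0 := congrFun h0 0
  have e1 := congrFun h0 1
  have e2 := congrFun h0 2
  simp only [crs, Pi.sub_apply, Pi.smul_apply, smul_eq_mul, Matrix.cons_val_zero,
    Matrix.cons_val_one, Matrix.cons_val, Pi.zero_apply] at e0 e1 e2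
  have f0 : dot n v * (u 1 * w 2 - u 2 * w 1) = dot n w * (u 1 * v 2 - u 2 * v 1) := by
    linear_combination e0
  have f1 : dot n v * (u 2 * w 0 - u 0 * w 2) = dot n w * (u 2 * v 0 - u 0 * v 2) := by
    linear_combination e1
  have f2 : dot n v * (u 0 * w 1 - u 1 * w 0) = dot n w * (u 0 * v 1 - u 1 * v 0) := by
    linear_combination e2
  have ha : area2 a d c = (u 1 * w 2 - u 2 * w 1) ^ 2 + (u 2 * w 0 - u 0 * w 2) ^ 2
      + (u 0 * w 1 - u 1 * w 0) ^ 2 := rfl
  have hb' : area2 a d b = (u 1 * v 2 - u 2 * v 1) ^ 2 + (u 2 * v 0 - u 0 * v 2) ^ 2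
      + (u 0 * v 1 - u 1 * v 0) ^ 2 := rfl
  rw [ha, hb']
  have g0 := congrArg (fun x => x ^ 2) f0
  have g1 := congrArg (fun x => x ^ 2) f1
  have g2 := congrArg (fun x => x ^ 2) f2
  simp only [mul_pow] at g0 g1 g2
  linear_combination g0 + g1 + g2

/-- A vector which is not in the span of `u` and `v` is not orthogonal to a normal of `u` and `v`. -/
theorem dot_ne_zero {n u v w : P3} (hu : dot n u = 0) (hv : dot n v = 0) (hn : dot n n ≠ 0)
    (hd : det3 u v w ≠ 0) : dot n w ≠ 0 := by
  intro hw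
  have : dot n n * det3 u v w = 0 := by
    simp only [dot, det3] at *
    linear_combination ((u 1 * v 2 - u 2 * v 1) * n 0 + (u 2 * v 0 - u 0 * v 2) * n 1
      + (u 0 * v 1 - u 1 * v 0) * n 2) * hw
      + (n 1 * w 2 - n 2 * w 1) * (u 0 * hv - v 0 * hu)
      + (n 2 * w 0 - n 0 * w 2) * (u 1 * hv - v 1 * hu)
      + (n 0 * w 1 - n 1 * w 0) * (u 2 * hv - v 2 * hu)
  rcases mul_eq_zero.mp this with h | h
  · exact hn h
  · exact hd h

theorem area2_ne_zero {n a b d : P3} (hu : det3 (d - a) n (b - a) ≠ 0) : area2 a d b ≠ 0 := by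
  intro h
  rw [area2_eq] at h
  have h1 : crs (d - a) (b - a) 0 = 0 ∧ crs (d - a) (b - a) 1 = 0 ∧ crs (d - a) (b - a) 2 = 0 := by
    simp only [dot] at h
    refine ⟨?_, ?_, ?_⟩ <;> nlinarith [sq_nonneg (crs (d - a) (b - a) 0),
      sq_nonneg (crs (d - a) (b - a) 1), sq_nonneg (crs (d - a) (b - a) 2)]
  obtain ⟨h0, h1, h2⟩ := h1
  apply hu
  simp only [crs, Matrix.cons_val_zero, Matrix.cons_val_one, Matrix.cons_val] at h0 h1 h2
  simp only [det3]
  linear_combination (-1) * n 0 * h0 - n 1 * h1 - n 2 * h2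

end Pool.Agent.Lib.MP_2847c2_co
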