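import Pool.Agent.Lib.MP_2847c2_co.CellSum

/-!
# The law for a mesh
-/

namespace Pool.Agent.Lib.MP_2847c2_co

theorem area2_swap (p q r : P3) : area2 q p r = area2 p q r := by
  simp only [area2, Pi.sub_apply]
  ring

theorem term_rev (f : P3 → P3 → ℝ) (q : Quad) (hq : f q.1 q.2.1 = f q.2.2.2 q.2.2.1) :
    term f (rev q) = - term f q := by
  obtain ⟨a, b, c, d⟩ := q
  simp only [term, rev, wt] at hq ⊢
  rw [area2_swap a d b, area2_swap a d c, hq]
  ring

/-- **The law.** -/
theorem law {ι κ : Type} [Fintype ι] [Fintype κ] (C : ι → Hexa) (B : κ → Quad) (hm : IsMesh C B)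
    (f : P3 → P3 → ℝ)
    (hf : ∀ p : ι × (Fin 6 × Fin 4), f (outFace (C p.1) p.2).1 (outFace (C p.1) p.2).2.1 =
      f (outFace (C p.1) p.2).2.2.2 (outFace (C p.1) p.2).2.2.1) :
    ∑ k, term f (B k) = 0 := by
  classical
  set q : ι × (Fin 6 × Fin 4) → Quad := fun p => outFace (C p.1) p.2 with hq
  have htot : ∑ p : ι × (Fin 6 × Fin 4), term f (q p) = 0 := by
    rw [Fintype.sum_prod_type]
    exact Finset.sum_eq_zero fun i _ => cell_sum (hm.hexa i) f fun s => hf (i, s)
  have hsplit := Finset.sum_filter_add_sum_filter_not (Finset.univ : Finset (ι × (Fin 6 × Fin 4)))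
    (fun p => ∃ k, B k = q p) (fun p => term f (q p))
  -- the boundary part
  have hb : ∑ p ∈ Finset.univ.filter (fun p => ∃ k, B k = q p), term f (q p) =
      ∑ k, term f (B k) := by
    symm
    choose g hg using hm.bdry
    refine Finset.sum_bij (fun k _ => g k) ?_ ?_ ?_ ?_
    · intro k _
      rw [Finset.mem_filter]
      exact ⟨Finset.mem_univ _, k, (hg k).symm⟩
    · intro k _ k' _ h
      apply hm.binj
      rw [← hg k, ← hg k', h]
    · intro p hp
      rw [Finset.mem_filter] at hp
      obtain ⟨_, k, hk⟩ := hp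
      refine ⟨k, Finset.mem_univ _, ?_⟩
      apply hm.inj
      rw [hg k, hk]
    · intro k _
      simp only [hq]
      rw [hg k]
  -- the interior part
  have hi : ∑ p ∈ Finset.univ.filter (fun p => ¬ ∃ k, B k = q p), term f (q p) = 0 := by
    have hex : ∀ p : ι × (Fin 6 × Fin 4), (¬ ∃ k, B k = q p) → ∃ p', q p' = rev (q p) := by
      intro p hp
      rcases hm.inner p with h | h
      · exact absurd h hp
      · exact h
    choose! g hg using hex
    have hrr : ∀ x : Quad, rev (rev x) = x := fun x => rfl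
    have hmem : ∀ p, (¬ ∃ k, B k = q p) → ¬ ∃ k, B k = q (g p) := by
      rintro p hp ⟨k, hk⟩
      apply hm.bdry_out k p
      rw [hk, hg p hp, hrr]
    refine Finset.sum_involution (fun p _ => g p) ?_ ?_ ?_ ?_
    · intro p hp
      rw [Finset.mem_filter] at hp
      rw [hg p hp.2, term_rev f (q p) (hf p)]
      ring
    · intro p hp h0 h1
      rw [Finset.mem_filter] at hp
      apply h0
      have e1 := term_rev f (q p) (hf p)
      rw [← hg p hp.2, h1] at e1
      linarith
    · intro p hp
      rw [Finset.mem_filter] at hp ⊢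
      exact ⟨Finset.mem_univ _, hmem p hp.2⟩
    · intro p hp
      rw [Finset.mem_filter] at hp
      apply hm.inj
      change q (g (g p)) = q p
      rw [hg (g p) (hmem p hp.2), hg p hp.2, hrr]
  rw [hb, hi, htot] at hsplit
  linarith

end Pool.Agent.Lib.MP_2847c2_co
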