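import Pool.Agent.Lib.MP_2847c2_co.Example

/-!
# Bicuboids near the example
-/

namespace Pool.Agent.Lib.MP_2847c2_co

open Filter Topology Ex

theorem continuous_coord (v : Fin 12) (i : Fin 3) : Continuous fun p : Fin 12 → P3 => p v i :=
  (continuous_apply i).comp (continuous_apply v)

theorem continuous_area2 (a b c : Fin 12) :
    Continuous fun p : Fin 12 → P3 => area2 (p a) (p b) (p c) := by
  simp only [area2, Pi.sub_apply]
  have h := continuous_coord
  fun_prop (disch := exact h _ _)

theorem continuous_det3 (a b c d : Fin 12) :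
    Continuous fun p : Fin 12 → P3 => det3 (p b - p a) (p c - p a) (p d - p a) := by
  simp only [det3, Pi.sub_apply]
  have h := continuous_coord
  fun_prop (disch := exact h _ _)

theorem continuousAt_wt (k : Fin 10 × Fin 4) :
    ContinuousAt (fun p : Fin 12 → P3 => wt (bicB p k)) exP := by
  simp only [wt, bicB]
  refine ContinuousAt.sub ?_ ?_
  · refine ContinuousAt.log (continuous_area2 _ _ _).continuousAt ?_
    rw [area_cast]
    exact_mod_cast (A_pos k).ne'
  · refine ContinuousAt.log (continuous_area2 _ _ _).continuousAt ?_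
    rw [area_cast]
    exact_mod_cast (D_pos k).ne'

theorem continuousAt_bicK (j : Fin 8) :
    ContinuousAt (fun p : Fin 12 → P3 => bicK p j) exP := by
  simp only [bicK]
  refine tendsto_finsetSum _ fun k _ => ?_
  by_cases h : bicClass k = j
  · simp only [h, if_true]
    exact continuousAt_wt k
  · simp only [h, if_false]
    exact tendsto_const_nhds

theorem eventually_generic : ∀ᶠ p in 𝓝 exP, Generic p := by
  have hfin : ∀ s : Fin 8 → Bool, ∀ᶠ p in 𝓝 exP,
      ∑ j, (if s j then (1 : ℝ) else 0) * bicK p j = 0 →
      (∀ j : Fin 8, j.val < 6 → s j = false) ∨ (∀ j : Fin 8, j.val < 6 → s j = true) := by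
    intro s
    by_cases h0 : ∑ j, (if s j then (1 : ℝ) else 0) * bicK exP j = 0
    · have := exP_generic (fun j => if s j then (1 : ℝ) else 0)
        (fun j => by by_cases h : s j <;> simp [h]) h0
      refine Eventually.of_forall fun p _ => ?_
      rcases this with h | h
      · left
        intro j hj
        have := h j hj
        by_contra hc
        simp [hc] at this
      · right
        intro j hj
        have := h j hj
        by_contra hc
        simp [hc] at this
    · have hc : ContinuousAt (fun p : Fin 12 → P3 =>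
          ∑ j, (if s j then (1 : ℝ) else 0) * bicK p j) exP :=
        tendsto_finsetSum _ fun j _ => tendsto_const_nhds.mul (continuousAt_bicK j)
      filter_upwards [hc.eventually_ne h0] with p hp h
      exact absurd h hp
  have hall : ∀ᶠ p in 𝓝 exP, ∀ s : Fin 8 → Bool,
      ∑ j, (if s j then (1 : ℝ) else 0) * bicK p j = 0 →
      (∀ j : Fin 8, j.val < 6 → s j = false) ∨ (∀ j : Fin 8, j.val < 6 → s j = true) :=
    eventually_all.2 hfin
  filter_upwards [hall] with p hp
  intro x hx hsum
  classical
  have hxs : ∀ j, x j = if decide (x j = 1) then 1 else 0 := by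
    intro j
    rcases hx j with h | h
    · simp [h]
    · simp [h]
  have hsum' : ∑ j, (if (fun j => decide (x j = 1)) j then (1 : ℝ) else 0) * bicK p j = 0 := by
    refine Eq.trans (Finset.sum_congr rfl fun j _ => ?_) hsum
    exact congrArg (· * bicK p j) (hxs j).symm
  rcases hp (fun j => decide (x j = 1)) hsum' with h | h
  · left
    intro j hj
    rw [hxs j, h j hj]
    simp
  · right
    intro j hj
    rw [hxs j, h j hj]
    simp

theorem eventually_convex : ∀ᶠ p in 𝓝 exP, (∀ k, Planar (bicB p k)) → ConvexBic p := by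
  have hfin : ∀ k : Fin 10 × Fin 4, ∀ v : Fin 12, ∀ᶠ p in 𝓝 exP, (∀ m, bicFace k.1 m ≠ v) →
      det3 ((bicB p k).2.1 - (bicB p k).1) ((bicB p k).2.2.1 - (bicB p k).1)
        (p v - (bicB p k).1) < 0 := by
    intro k v
    by_cases hv : ∀ m, bicFace k.1 m ≠ v
    · have h0 := exP_convex.2 k v hv
      have hc := (continuous_det3 (bicFace k.1 k.2) (bicFace k.1 (k.2 + 1)) (bicFace k.1 (k.2 + 2))
        v).continuousAt (x := exP)
      filter_upwards [hc.eventually_lt_const h0] with p hp _
      exact hp
    · exact Eventually.of_forall fun p h => absurd h hv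
  have hall : ∀ᶠ p in 𝓝 exP, ∀ k : Fin 10 × Fin 4, ∀ v : Fin 12, (∀ m, bicFace k.1 m ≠ v) →
      det3 ((bicB p k).2.1 - (bicB p k).1) ((bicB p k).2.2.1 - (bicB p k).1)
        (p v - (bicB p k).1) < 0 :=
    eventually_all.2 fun k => eventually_all.2 fun v => hfin k v
  filter_upwards [hall] with p hp hpl
  exact ⟨hpl, hp⟩

theorem eventually_warped : ∀ᶠ p in 𝓝 exP, ¬ Planar (p 4, p 5, p 6, p 7) := by
  have hc := (continuous_det3 4 5 6 7).continuousAt (x := exP)
  exact hc.eventually_ne exP_warped

end Pool.Agent.Lib.MP_2847c2_co
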